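import Mathlib

/-!
The group of class two and exponent three attached to a bilinear map over the field with three
elements, and the normal form of its word maps.
-/

set_option autoImplicit false

namespace Pool.Agent.V1128.Semi

variable {V W : Type} [AddCommGroup V] [Module (ZMod 3) V] [AddCommGroup W] [Module (ZMod 3) W]

/-- The set `V × W`, on which the bilinear map `β` defines a group structure. -/
@[ext] structure Hei (β : V →ₗ[ZMod 3] V →ₗ[ZMod 3] W) where
  v : V
  w : W

namespace Hei

variable {β : V →ₗ[ZMod 3] V →ₗ[ZMod 3] W}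

instance : Mul (Hei β) := ⟨fun g h => ⟨g.v + h.v, g.w + h.w - β g.v h.v⟩⟩
instance : One (Hei β) := ⟨⟨0, 0⟩⟩
instance : Inv (Hei β) := ⟨fun g => ⟨-g.v, -g.w - β g.v g.v⟩⟩

@[simp] lemma mul_v (g h : Hei β) : (g * h).v = g.v + h.v := rfl
@[simp] lemma mul_w (g h : Hei β) : (g * h).w = g.w + h.w - β g.v h.v := rfl
@[simp] lemma one_v : (1 : Hei β).v = 0 := rfl
@[simp] lemma one_w : (1 : Hei β).w = 0 := rfl
@[simp] lemma inv_v (g : Hei β) : (g⁻¹).v = -g.v := rfl
@[simp] lemma inv_w (g : Hei β) : (g⁻¹).w = -g.w - β g.v g.v := rfl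

instance : Group (Hei β) where
  mul_assoc a b c := by
    apply Hei.ext
    · simp [add_assoc]
    · simp only [mul_w, mul_v, map_add, LinearMap.add_apply]
      abel
  one_mul a := by
    apply Hei.ext <;> simp
  mul_one a := by
    apply Hei.ext <;> simp
  inv_mul_cancel a := by
    apply Hei.ext
    · simp
    · simp only [mul_w, inv_w, inv_v, one_w, map_neg, LinearMap.neg_apply]
      abel

/-- the underlying set is `V × W` -/
def equiv (β : V →ₗ[ZMod 3] V →ₗ[ZMod 3] W) : Hei β ≃ V × W where
  toFun g := (g.v, g.w)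
  invFun p := ⟨p.1, p.2⟩
  left_inv _ := rfl
  right_inv _ := rfl

instance [Fintype V] [Fintype W] : Fintype (Hei β) := Fintype.ofEquiv _ (equiv β).symm

lemma card [Fintype V] [Fintype W] : Fintype.card (Hei β) = Fintype.card V * Fintype.card W := by
  rw [Fintype.card_congr (equiv β), Fintype.card_prod]

lemma three_smul' {M : Type} [AddCommGroup M] [Module (ZMod 3) M] (x : M) : x + x + x = 0 := by
  have h : (1 : ZMod 3) + 1 + 1 = 0 := by decide
  calc x + x + x = ((1 : ZMod 3) + 1 + 1) • x := by simp [add_smul]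
    _ = 0 := by rw [h, zero_smul]

lemma central (w : W) (g : Hei β) : (⟨0, w⟩ : Hei β) * g = g * ⟨0, w⟩ := by
  apply Hei.ext
  · simp
  · simp [add_comm]

/-- commutators -/
lemma comm_eq (hβ : ∀ v, β v v = 0) (g h : Hei β) :
    g * h * g⁻¹ * h⁻¹ = ⟨0, β g.v h.v⟩ := by
  have hanti : β h.v g.v = - β g.v h.v := by
    have := hβ (g.v + h.v)
    simp only [map_add, LinearMap.add_apply, hβ] at this
    rw [eq_neg_iff_add_eq_zero]
    simpa [add_comm] using this
  apply Hei.ext
  · simp
  · simp only [mul_w, mul_v, inv_v, inv_w, map_add, map_neg, LinearMap.add_apply, hβ, hanti,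
      LinearMap.neg_apply]
    have h3 := three_smul' (β g.v h.v)
    have h2 : β g.v h.v = -(β g.v h.v) - β g.v h.v := by
      rw [eq_sub_iff_add_eq, eq_neg_iff_add_eq_zero]
      exact h3
    conv_rhs => rw [h2]
    abel

lemma inv_eq (hβ : ∀ v, β v v = 0) (g : Hei β) : g⁻¹ = ⟨-g.v, -g.w⟩ := by
  apply Hei.ext
  · simp
  · simp [hβ]

/-- normal form of word maps -/
lemma normal_form (hβ : ∀ v, β v v = 0) {ι : Type} [Fintype ι] [DecidableEq ι] (u : FreeGroup ι) :
    ∃ (a : ι → ZMod 3) (c : ι → ι → ZMod 3), ∀ x : ι → Hei β,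
      FreeGroup.lift x u = ⟨∑ i, a i • (x i).v,
        ∑ i, a i • (x i).w + ∑ i, ∑ j, c i j • β (x i).v (x j).v⟩ := by
  induction u using FreeGroup.induction_on with
  | C1 =>
    refine ⟨0, 0, fun x => ?_⟩
    rw [map_one]
    apply Hei.ext <;> simp
  | of i =>
    refine ⟨Pi.single i 1, 0, fun x => ?_⟩
    rw [FreeGroup.lift_apply_of]
    apply Hei.ext <;> simp [Pi.single_apply]
  | inv_of i _ =>
    refine ⟨-Pi.single i 1, 0, fun x => ?_⟩
    rw [map_inv, FreeGroup.lift_apply_of, inv_eq hβ]
    apply Hei.ext <;> simp [Pi.single_apply]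
  | mul u v hu hv =>
    obtain ⟨a, c, h1⟩ := hu
    obtain ⟨a', c', h2⟩ := hv
    refine ⟨a + a', fun i j => c i j + c' i j - a i * a' j, fun x => ?_⟩
    rw [map_mul, h1, h2]
    apply Hei.ext
    · simp [add_smul, Finset.sum_add_distrib]
    · simp only [mul_w, Pi.add_apply, add_smul, sub_smul, Finset.sum_add_distrib,
        Finset.sum_sub_distrib, map_sum, LinearMap.sum_apply, map_smul, LinearMap.smul_apply,
        Finset.smul_sum, mul_smul]
      rw [Finset.sum_comm (f := fun i j => a i • a' j • β (x i).v (x j).v)]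
      have : ∀ i j, a' i • a j • β (x j).v (x i).v = a j • a' i • β (x j).v (x i).v := by
        intro i j
        rw [smul_comm]
      simp only [this]
      abel

end Hei

end Pool.Agent.V1128.Semi
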