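import Mathlib
import Pool.Agent.V1128.Semi.Grp

set_option autoImplicit false

namespace Pool.Agent.V1128.Semi

/-- The alternating bilinear map: `[e i, e j] = w (i + j)`. -/
def formFun (u v : Fin 5 → ZMod 3) : Fin 6 → ZMod 3 :=
  ![u 0 * v 1 - u 1 * v 0,
    u 0 * v 2 - u 2 * v 0,
    (u 0 * v 3 - u 3 * v 0) + (u 1 * v 2 - u 2 * v 1),
    (u 0 * v 4 - u 4 * v 0) + (u 1 * v 3 - u 3 * v 1),
    (u 1 * v 4 - u 4 * v 1) + (u 2 * v 3 - u 3 * v 2),
    u 2 * v 4 - u 4 * v 2]

/-- the alternating bilinear map on the five-dimensional space with values in the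
six-dimensional one -/
def form : (Fin 5 → ZMod 3) →ₗ[ZMod 3] (Fin 5 → ZMod 3) →ₗ[ZMod 3] (Fin 6 → ZMod 3) :=
  LinearMap.mk₂ (ZMod 3) formFun
    (by intro u u' v; funext i; fin_cases i <;> simp [formFun] <;> ring)
    (by intro c u v; funext i; fin_cases i <;> simp [formFun] <;> ring)
    (by intro u v v'; funext i; fin_cases i <;> simp [formFun] <;> ring)
    (by intro c u v; funext i; fin_cases i <;> simp [formFun] <;> ring)

lemma form_apply (u v : Fin 5 → ZMod 3) : form u v = formFun u v := rfl

lemma form_self (v : Fin 5 → ZMod 3) : form v v = 0 := by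
  rw [form_apply]
  funext i
  fin_cases i <;> simp [formFun] <;> ring

/-- commuting vectors -/
lemma form_zero {u v : Fin 5 → ZMod 3} (h : form u v = 0) (hu : u ≠ 0)
    (huv : ∀ t : ZMod 3, v ≠ t • u) :
    u 0 = 0 ∧ u 1 = 0 ∧ u 2 = 0 ∧ v 0 = 0 ∧ v 1 = 0 ∧ v 2 = 0 := by
  have : Fact (Nat.Prime 3) := ⟨Nat.prime_three⟩
  rw [form_apply] at h
  have e0 : u 0 * v 1 - u 1 * v 0 = 0 := congrFun h 0
  have e1 : u 0 * v 2 - u 2 * v 0 = 0 := congrFun h 1
  have e2 : (u 0 * v 3 - u 3 * v 0) + (u 1 * v 2 - u 2 * v 1) = 0 := congrFun h 2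
  have e3 : (u 0 * v 4 - u 4 * v 0) + (u 1 * v 3 - u 3 * v 1) = 0 := congrFun h 3
  have e4 : (u 1 * v 4 - u 4 * v 1) + (u 2 * v 3 - u 3 * v 2) = 0 := congrFun h 4
  have e5 : u 2 * v 4 - u 4 * v 2 = 0 := congrFun h 5
  have key : ∀ t : ZMod 3, ¬ (v 0 = t * u 0 ∧ v 1 = t * u 1 ∧ v 2 = t * u 2 ∧ v 3 = t * u 3 ∧
      v 4 = t * u 4) := by
    rintro t ⟨h0, h1, h2, h3, h4⟩
    apply huv t
    funext i
    fin_cases i <;> simp [h0, h1, h2, h3, h4]
  have key2 : ¬ (u 0 = 0 ∧ u 1 = 0 ∧ u 2 = 0 ∧ u 3 = 0 ∧ u 4 = 0) := by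
    rintro ⟨h0, h1, h2, h3, h4⟩
    apply hu
    funext i
    fin_cases i <;> simp [h0, h1, h2, h3, h4]
  have u0 : u 0 = 0 := by
    by_contra hc
    apply key (v 0 / u 0)
    have h0 : v 0 = v 0 / u 0 * u 0 := by field_simp
    have h1 : v 1 = v 0 / u 0 * u 1 := by field_simp; linear_combination e0
    have h2 : v 2 = v 0 / u 0 * u 2 := by field_simp; linear_combination e1
    have h3 : v 3 = v 0 / u 0 * u 3 := by
      have : u 1 * v 2 - u 2 * v 1 = 0 := by rw [h1, h2]; ring
      field_simp; linear_combination e2 - this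
    have h4 : v 4 = v 0 / u 0 * u 4 := by
      have : u 1 * v 3 - u 3 * v 1 = 0 := by rw [h1, h3]; ring
      field_simp; linear_combination e3 - this
    exact ⟨h0, h1, h2, h3, h4⟩
  have v0 : v 0 = 0 := by
    by_contra hc
    rw [u0] at e0 e1 e2 e3
    have h1 : u 1 = 0 := by
      have : u 1 * v 0 = 0 := by linear_combination -e0
      exact (mul_eq_zero.mp this).resolve_right hc
    have h2 : u 2 = 0 := by
      have : u 2 * v 0 = 0 := by linear_combination -e1
      exact (mul_eq_zero.mp this).resolve_right hc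
    have h3 : u 3 = 0 := by
      have : u 3 * v 0 = 0 := by rw [h1, h2] at e2; linear_combination -e2
      exact (mul_eq_zero.mp this).resolve_right hc
    have h4 : u 4 = 0 := by
      have : u 4 * v 0 = 0 := by rw [h1, h3] at e3; linear_combination -e3
      exact (mul_eq_zero.mp this).resolve_right hc
    exact key2 ⟨u0, h1, h2, h3, h4⟩
  rw [u0, v0] at e2 e3
  have u1 : u 1 = 0 := by
    by_contra hc
    apply key (v 1 / u 1)
    have h0 : v 0 = v 1 / u 1 * u 0 := by rw [u0, v0]; simp
    have h1 : v 1 = v 1 / u 1 * u 1 := by field_simp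
    have h2 : v 2 = v 1 / u 1 * u 2 := by field_simp; linear_combination e2
    have h3 : v 3 = v 1 / u 1 * u 3 := by field_simp; linear_combination e3
    have h4 : v 4 = v 1 / u 1 * u 4 := by
      have : u 2 * v 3 - u 3 * v 2 = 0 := by rw [h2, h3]; ring
      field_simp; linear_combination e4 - this
    exact ⟨h0, h1, h2, h3, h4⟩
  have v1 : v 1 = 0 := by
    by_contra hc
    rw [u1] at e2 e3 e4
    have h2 : u 2 = 0 := by
      have : u 2 * v 1 = 0 := by linear_combination -e2
      exact (mul_eq_zero.mp this).resolve_right hc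
    have h3 : u 3 = 0 := by
      have : u 3 * v 1 = 0 := by linear_combination -e3
      exact (mul_eq_zero.mp this).resolve_right hc
    have h4 : u 4 = 0 := by
      have : u 4 * v 1 = 0 := by rw [h2, h3] at e4; linear_combination -e4
      exact (mul_eq_zero.mp this).resolve_right hc
    exact key2 ⟨u0, u1, h2, h3, h4⟩
  rw [u1, v1] at e4
  have u2 : u 2 = 0 := by
    by_contra hc
    apply key (v 2 / u 2)
    have h0 : v 0 = v 2 / u 2 * u 0 := by rw [u0, v0]; simp
    have h1 : v 1 = v 2 / u 2 * u 1 := by rw [u1, v1]; simp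
    have h2 : v 2 = v 2 / u 2 * u 2 := by field_simp
    have h3 : v 3 = v 2 / u 2 * u 3 := by field_simp; linear_combination e4
    have h4 : v 4 = v 2 / u 2 * u 4 := by field_simp; linear_combination e5
    exact ⟨h0, h1, h2, h3, h4⟩
  have v2 : v 2 = 0 := by
    by_contra hc
    rw [u2] at e4 e5
    have h3 : u 3 = 0 := by
      have : u 3 * v 2 = 0 := by linear_combination -e4
      exact (mul_eq_zero.mp this).resolve_right hc
    have h4 : u 4 = 0 := by
      have : u 4 * v 2 = 0 := by linear_combination -e5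
      exact (mul_eq_zero.mp this).resolve_right hc
    exact key2 ⟨u0, u1, u2, h3, h4⟩
  exact ⟨u0, u1, u2, v0, v1, v2⟩

lemma sq_eq_one : ∀ t : ZMod 3, t ≠ 0 → t * t = 1 := by decide

/-- the final computation -/
lemma final_algebra (a b c d s0 s1 s2 x0 x1 x2 x3 y0 y1 y2 y3 : ZMod 3)
    (h7a : x0 * c = y0 * a) (h7b : x0 * d + x1 * c = y0 * b + y1 * a)
    (h7c : x1 * d + x2 * c = y1 * b + y2 * a)
    (h6a : s0 * c = x0 * a) (h6b : s0 * d + s1 * c = x0 * b + x1 * a)
    (h6c : s1 * d + s2 * c = x1 * b + x2 * a) (h6d : s2 * d = x2 * b)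
    (h7d : x2 * d = y2 * b)
    (h5a : x0 * y1 = x1 * y0) (h5b : x0 * y2 = x2 * y0)
    (h5c : s0 * a = x0 * y3 - x3 * y0 + (x1 * y2 - x2 * y1))
    (hdet : a * d - b * c ≠ 0) (hy : ¬ (y0 = 0 ∧ y1 = 0 ∧ y2 = 0)) :
    y0 * c = 0 ∧ y0 * d + y1 * c = 0 ∧ y1 * d + y2 * c = 0 ∧ y2 * d = 1 := by
  have : Fact (Nat.Prime 3) := ⟨Nat.prime_three⟩
  have sq := sq_eq_one
  have hX : x0 * d ^ 2 - x1 * c * d + x2 * c ^ 2 = 0 := by
    have : (a * d - b * c) * (x0 * d ^ 2 - x1 * c * d + x2 * c ^ 2) = 0 := by
      linear_combination -d ^ 3 * h6a + c * d ^ 2 * h6b - c ^ 2 * d * h6c + c ^ 3 * h6d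
    exact (mul_eq_zero.mp this).resolve_left hdet
  have hY : y0 * d ^ 2 - y1 * c * d + y2 * c ^ 2 = 0 := by
    have : (a * d - b * c) * (y0 * d ^ 2 - y1 * c * d + y2 * c ^ 2) = 0 := by
      linear_combination -d ^ 3 * h7a + c * d ^ 2 * h7b - c ^ 2 * d * h7c + c ^ 3 * h7d
    exact (mul_eq_zero.mp this).resolve_left hdet
  have hc : c = 0 := by
    by_contra hc
    by_cases hy0 : y0 = 0
    · subst hy0
      have hx0 : x0 = 0 := by
        have : x0 * c = 0 := by linear_combination h7a
        exact (mul_eq_zero.mp this).resolve_right hc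
      subst hx0
      have k1 : x2 * c - x1 * d = 0 := by
        have : c * (x2 * c - x1 * d) = 0 := by linear_combination hX
        exact (mul_eq_zero.mp this).resolve_left hc
      have k2 : y2 * c - y1 * d = 0 := by
        have : c * (y2 * c - y1 * d) = 0 := by linear_combination hY
        exact (mul_eq_zero.mp this).resolve_left hc
      have hy1 : y1 = 0 := by
        have : (a * d - b * c) * y1 = 0 := by
          linear_combination c * h7c - c * k1 - 2 * d * h7b + a * k2
        exact (mul_eq_zero.mp this).resolve_left hdet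
      have hy2 : y2 = 0 := by
        have : y2 * c = 0 := by rw [hy1] at k2; linear_combination k2
        exact (mul_eq_zero.mp this).resolve_right hc
      exact hy ⟨rfl, hy1, hy2⟩
    · apply hdet
      -- `x = κ y`
      have hx1 : x1 = x0 / y0 * y1 := by field_simp; linear_combination -h5a
      have hx2 : x2 = x0 / y0 * y2 := by field_simp; linear_combination -h5b
      have ha : a = x0 / y0 * c := by field_simp; linear_combination -h7a
      have hb : b = x0 / y0 * d := by
        rw [hx1, ha] at h7b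
        have : y0 * b = y0 * (x0 / y0 * d) := by
          have e : y0 * (x0 / y0 * d) = x0 * d := by field_simp
          rw [e]
          linear_combination -h7b
        exact mul_left_cancel₀ hy0 this
      rw [ha, hb]
      ring
  subst hc
  have ha : a ≠ 0 := by
    rintro rfl
    apply hdet
    ring
  have hd : d ≠ 0 := by
    rintro rfl
    apply hdet
    ring
  have hy0 : y0 = 0 := by
    have : y0 * a = 0 := by linear_combination -h7a
    exact (mul_eq_zero.mp this).resolve_right ha
  subst hy0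
  have hx0 : x0 = 0 := by
    have : x0 * d ^ 2 = 0 := by linear_combination hX
    exact (mul_eq_zero.mp this).resolve_right (pow_ne_zero 2 hd)
  subst hx0
  have hy1 : y1 = 0 := by
    have : y1 * a = 0 := by linear_combination -h7b
    exact (mul_eq_zero.mp this).resolve_right ha
  subst hy1
  have hy2 : y2 ≠ 0 := fun h => hy ⟨rfl, rfl, h⟩
  refine ⟨by ring, by ring, by ring, ?_⟩
  have hx1 : x1 ≠ 0 := by
    rintro rfl
    have : y2 * a = 0 := by linear_combination -h7c
    exact (mul_ne_zero hy2 ha) this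
  have h1 : x1 * (a * a) = x1 * (y2 * d) := by
    linear_combination -a * h6b + d * h5c
  have h2 := mul_left_cancel₀ hx1 h1
  rw [← h2, sq a ha]

/-! ### automorphisms of the group -/

section Auto

/-- an element of the group is central iff its first component vanishes -/
lemma central_iff (g : Hei form) : (∀ h : Hei form, g * h = h * g) ↔ g.v = 0 := by
  constructor
  · intro hc
    have key : ∀ v : Fin 5 → ZMod 3, form g.v v = 0 := by
      intro v
      have h1 := Hei.comm_eq form_self g ⟨v, 0⟩
      rw [hc ⟨v, 0⟩] at h1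
      have h2 := congrArg Hei.w h1
      have h3 : (⟨v, 0⟩ * g * g⁻¹ * ⟨v, 0⟩⁻¹ : Hei form) = 1 := by group
      rw [h3] at h2
      exact h2.symm
    -- evaluate at the basis vectors
    have k0 := key (Pi.single 0 1)
    have k1 := key (Pi.single 1 1)
    rw [form_apply] at k0 k1
    have a1 : g.v 1 = 0 := by simpa [formFun, Pi.single_apply] using congrFun k0 0
    have a2 : g.v 2 = 0 := by simpa [formFun, Pi.single_apply] using congrFun k0 1
    have a3 : g.v 3 = 0 := by simpa [formFun, Pi.single_apply] using congrFun k0 2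
    have a4 : g.v 4 = 0 := by simpa [formFun, Pi.single_apply] using congrFun k0 3
    have a0 : g.v 0 = 0 := by simpa [formFun, Pi.single_apply] using congrFun k1 0
    funext i
    fin_cases i
    · exact a0
    · exact a1
    · exact a2
    · exact a3
    · exact a4
  · intro hg h
    have : g = ⟨0, g.w⟩ := Hei.ext hg rfl
    rw [this]
    exact Hei.central _ _

variable (α : Hei form ≃* Hei form)

lemma auto_v (g : Hei form) (hg : g.v = 0) : (α g).v = 0 := by
  rw [← central_iff] at hg ⊢
  intro h
  obtain ⟨k, rfl⟩ := α.surjective h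
  rw [← map_mul, ← map_mul, hg]

lemma auto_v' (g : Hei form) (hg : (α g).v = 0) : g.v = 0 := by
  have := auto_v α.symm (α g) hg
  rwa [MulEquiv.symm_apply_apply] at this

/-- the linear map induced on the quotient -/
def autoA : (Fin 5 → ZMod 3) →+ (Fin 5 → ZMod 3) where
  toFun v := (α ⟨v, 0⟩).v
  map_zero' := auto_v α _ rfl
  map_add' u v := by
    have h1 : (⟨u + v, 0⟩ : Hei form) = ⟨u, 0⟩ * ⟨v, 0⟩ * ⟨0, form u v⟩ := by
      apply Hei.ext <;> simp
    rw [h1, map_mul, map_mul, Hei.mul_v, Hei.mul_v, auto_v α ⟨0, form u v⟩ rfl, add_zero]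

lemma autoA_smul (t : ZMod 3) (v : Fin 5 → ZMod 3) : autoA α (t • v) = t • autoA α v :=
  ((autoA α).toZModLinearMap 3).map_smul t v

lemma autoA_inj (v : Fin 5 → ZMod 3) (h : autoA α v = 0) : v = 0 :=
  auto_v' α ⟨v, 0⟩ h

/-- compatibility with the form -/
lemma auto_form (u v : Fin 5 → ZMod 3) :
    α ⟨0, form u v⟩ = ⟨0, form (autoA α u) (autoA α v)⟩ := by
  have h1 := Hei.comm_eq form_self (⟨u, 0⟩ : Hei form) ⟨v, 0⟩
  have h2 := Hei.comm_eq form_self (α ⟨u, 0⟩) (α ⟨v, 0⟩)
  rw [← h1, map_mul, map_mul, map_mul, map_inv, map_inv, h2]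
  rfl

/-- The last basis vector of the centre is fixed by every automorphism. -/
theorem auto_fixed : α ⟨0, Pi.single 5 1⟩ = ⟨0, Pi.single 5 1⟩ := by
  -- images of the basis vectors
  set A := autoA α with hA
  let e : Fin 5 → (Fin 5 → ZMod 3) := fun i => Pi.single i 1
  have hf : ∀ i j, α ⟨0, form (e i) (e j)⟩ = ⟨0, form (A (e i)) (A (e j))⟩ := fun i j =>
    auto_form α _ _
  have f34 : form (e 3) (e 4) = 0 := by decide
  have f24 : form (e 2) (e 4) = Pi.single 5 1 := by decide
  have f14 : form (e 1) (e 4) = form (e 2) (e 3) := by decide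
  have f04 : form (e 0) (e 4) = form (e 1) (e 3) := by decide
  have f03 : form (e 0) (e 3) = form (e 1) (e 2) := by decide
  have f14' : form (e 1) (e 4) ≠ 0 := by decide
  have inj0 : ∀ w : Fin 6 → ZMod 3, α ⟨0, w⟩ = 1 → w = 0 := by
    intro w hw
    have h1 : (⟨0, w⟩ : Hei form) = 1 := by
      apply α.injective
      rw [hw, map_one]
    exact congrArg Hei.w h1
  have g34 : form (A (e 3)) (A (e 4)) = 0 := by
    have h1 := hf 3 4
    rw [f34] at h1
    have h2 : α ⟨0, 0⟩ = 1 := map_one α
    rw [h2] at h1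
    exact (congrArg Hei.w h1).symm
  have g14 : form (A (e 1)) (A (e 4)) = form (A (e 2)) (A (e 3)) := by
    have h1 := hf 1 4
    rw [f14, hf 2 3] at h1
    exact (congrArg Hei.w h1).symm
  have g04 : form (A (e 0)) (A (e 4)) = form (A (e 1)) (A (e 3)) := by
    have h1 := hf 0 4
    rw [f04, hf 1 3] at h1
    exact (congrArg Hei.w h1).symm
  have g03 : form (A (e 0)) (A (e 3)) = form (A (e 1)) (A (e 2)) := by
    have h1 := hf 0 3
    rw [f03, hf 1 2] at h1
    exact (congrArg Hei.w h1).symm
  have g14' : form (A (e 2)) (A (e 3)) ≠ 0 := by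
    intro h
    apply f14'
    apply inj0
    rw [f14, hf, h]
    rfl
  have n3 : A (e 3) ≠ 0 := by
    intro h
    have := autoA_inj α _ h
    exact absurd (congrFun this 3) (by decide)
  have n34 : ∀ t : ZMod 3, A (e 4) ≠ t • A (e 3) := by
    intro t h
    have h1 : A (e 4 - t • e 3) = 0 := by
      rw [map_sub, autoA_smul, h, sub_self]
    have h2 := autoA_inj α _ h1
    have h3 := congrFun h2 4
    simp [e] at h3
  obtain ⟨u0, u1, u2, v0, v1, v2⟩ := form_zero g34 n3 n34
  rw [← f24, hf]
  -- coordinates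
  generalize A (e 0) = s at *
  generalize A (e 1) = x at *
  generalize A (e 2) = y at *
  generalize A (e 3) = u at *
  generalize A (e 4) = v at *
  rw [form_apply, form_apply] at g14 g04 g03
  have c14 := fun i => congrFun g14 i
  have c04 := fun i => congrFun g04 i
  have c03 := fun i => congrFun g03 i
  have p2 := c14 2
  have p3 := c14 3
  have p4 := c14 4
  have p5 := c14 5
  have q2 := c04 2
  have q3 := c04 3
  have q4 := c04 4
  have q5 := c04 5
  have r0 := c03 0
  have r1 := c03 1
  have r2 := c03 2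
  simp [formFun, u0, u1, u2, v0, v1, v2] at p2 p3 p4 p5 q2 q3 q4 q5 r0 r1 r2
  have hdet : u 3 * v 4 - u 4 * v 3 ≠ 0 := by
    have : Fact (Nat.Prime 3) := ⟨Nat.prime_three⟩
    intro h
    by_cases h3 : u 3 = 0
    · by_cases h4 : u 4 = 0
      · apply n3
        funext i
        fin_cases i <;> simp [u0, u1, u2, h3, h4]
      · apply n34 (v 4 / u 4)
        funext i
        fin_cases i
        · simp [u0, v0]
        · simp [u1, v1]
        · simp [u2, v2]
        · have : v 3 = 0 := by
            have h5 : u 4 * v 3 = 0 := by rw [h3] at h; linear_combination -h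
            exact (mul_eq_zero.mp h5).resolve_left h4
          simp [this, h3]
        · simp [h4]
    · apply n34 (v 3 / u 3)
      funext i
      fin_cases i
      · simp [u0, v0]
      · simp [u1, v1]
      · simp [u2, v2]
      · simp [h3]
      · show v 4 = v 3 / u 3 * u 4
        field_simp
        linear_combination h
  have hy : ¬ (y 0 = 0 ∧ y 1 = 0 ∧ y 2 = 0) := by
    rintro ⟨h0, h1, h2⟩
    apply g14'
    rw [form_apply]
    funext i
    fin_cases i <;> simp [formFun, u0, u1, u2, h0, h1, h2]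
  have key := final_algebra (u 3) (u 4) (v 3) (v 4) (s 0) (s 1) (s 2) (x 0) (x 1) (x 2) (x 3)
    (y 0) (y 1) (y 2) (y 3) (by linear_combination p2) (by linear_combination p3)
    (by linear_combination p4) (by linear_combination q2) (by linear_combination q3)
    (by linear_combination q4) (by linear_combination q5) (by linear_combination p5)
    (by linear_combination -r0) (by linear_combination -r1) (by linear_combination r2) hdet hy
  obtain ⟨k1, k2, k3, k4⟩ := key
  have hfin : form y v = Pi.single 5 1 := by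
    rw [form_apply]
    funext i
    fin_cases i
    · simp [formFun, v0, v1]
    · simp [formFun, v0, v2]
    · simp [formFun, v0, v1, v2]
      exact mul_eq_zero.mp k1
    · simp [formFun, v0, v1]
      linear_combination k2
    · simp [formFun, v1, v2]
      linear_combination k3
    · simp [formFun, v2]
      linear_combination k4
  rw [hfin, f24]

end Auto

end Pool.Agent.V1128.Semi
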