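import Mathlib

/-!
Word maps of finite groups, generalized characters, semi-rational groups, the absolute centre.
-/

set_option autoImplicit false

namespace Pool.Agent.V1128.Semi

open scoped ComplexConjugate

/-- The number of `r`-tuples of elements of `G` at which the word `u` takes the value `g`. -/
noncomputable def wordCount {G : Type} [Group G] {r : ℕ} (u : FreeGroup (Fin r)) (g : G) : ℕ :=
  Nat.card {x : Fin r → G // FreeGroup.lift x u = g}

/-- A function on a finite group is a generalized character if its inner product
`⟨f, χ⟩ = |G|⁻¹ ∑ f(g) conj χ(g)` with every irreducible complex character is an integer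
(`f` is a class function in our applications). -/
def IsGeneralizedCharacter {G : Type} [Group G] [Fintype G] (f : G → ℂ) : Prop :=
  (∀ g h : G, f (h * g * h⁻¹) = f g) ∧
  ∀ (E : Type) [AddCommGroup E] [Module ℂ E] [FiniteDimensional ℂ E] (ρ : Representation ℂ G E),
    ρ.IsIrreducible → ∃ m : ℤ,
      (Fintype.card G : ℂ)⁻¹ * ∑ g, f g * conj (ρ.character g) = m

/-- A finite group is semi-rational if for every `r ≥ 1` and every word `u` in `r` letters the
function `N_u` is a generalized character. -/
def SemiRational (G : Type) [Group G] [Fintype G] : Prop :=
  ∀ (r : ℕ) (u : FreeGroup (Fin r)), 1 ≤ r →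
    IsGeneralizedCharacter (fun g : G => (wordCount u g : ℂ))

/-- The absolute centre: the elements fixed by all automorphisms. -/
def absoluteCenter (G : Type) [Group G] : Set G := {g | ∀ α : G ≃* G, α g = g}

end Pool.Agent.V1128.Semi
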