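import Mathlib

/-!
Every alternating form on a finite-dimensional space is negated by a linear automorphism.
-/

set_option autoImplicit false

namespace Pool.Agent.V1128.Semi

universe u

variable {F : Type} [Field F]

lemma exists_neg_aux (n : ℕ) : ∀ (U : Type u) [AddCommGroup U] [Module F U] [FiniteDimensional F U]
    (C : U →ₗ[F] U →ₗ[F] F), (∀ x, C x x = 0) → Module.finrank F U ≤ n →
    ∃ M : U ≃ₗ[F] U, ∀ x y, C (M x) (M y) = - C x y := by
  induction n with
  | zero =>
    intro U _ _ _ C hC hn
    have hU : Subsingleton U := Module.finrank_zero_iff.mp (Nat.le_zero.mp hn)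
    refine ⟨LinearEquiv.refl F U, fun x y => ?_⟩
    rw [Subsingleton.elim x 0, Subsingleton.elim y 0]
    simp
  | succ n ih =>
    intro U _ _ _ C hC hn
    have hanti : ∀ x y, C y x = - C x y := by
      intro x y
      have := hC (x + y)
      simp only [map_add, LinearMap.add_apply, hC] at this
      rw [eq_neg_iff_add_eq_zero]
      simpa using this
    by_cases h0 : ∀ x y, C x y = 0
    · refine ⟨LinearEquiv.refl F U, fun x y => ?_⟩
      simp [h0]
    push Not at h0
    obtain ⟨x, y₀, hxy⟩ := h0
    -- normalise
    obtain ⟨y, hy⟩ : ∃ y, C x y = 1 := ⟨(C x y₀)⁻¹ • y₀, by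
      rw [map_smul, smul_eq_mul, inv_mul_cancel₀ hxy]⟩
    have hyx : C y x = -1 := by rw [hanti x y, hy]
    let K : Submodule F U := LinearMap.ker (C x) ⊓ LinearMap.ker (C y)
    have hK : ∀ k : K, C x k = 0 ∧ C y k = 0 := fun k => ⟨k.2.1, k.2.2⟩
    -- the projection onto `K`
    let π : U →ₗ[F] U := LinearMap.id - (C x).smulRight y + (C y).smulRight x
    have hπ : ∀ u, π u = u - C x u • y + C y u • x := fun u => rfl
    have hπK : ∀ u, π u ∈ K := by
      intro u
      refine Submodule.mem_inf.mpr ⟨LinearMap.mem_ker.mpr ?_, LinearMap.mem_ker.mpr ?_⟩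
      · rw [hπ]
        simp [hC, hy]
      · rw [hπ]
        simp [hC, hyx]
    have hπid : ∀ k : K, π k = k := by
      intro k
      rw [hπ, (hK k).1, (hK k).2]
      simp
    have hlt : Module.finrank F K ≤ n := by
      have h1 : K < ⊤ := by
        rw [lt_top_iff_ne_top]
        intro h
        have : y ∈ K := h ▸ Submodule.mem_top
        have h2 : C x y = 0 := this.1
        rw [hy] at h2
        exact one_ne_zero h2
      have := Submodule.finrank_lt h1.ne
      omega
    obtain ⟨M, hM⟩ := ih K ((C.comp K.subtype).compl₂ K.subtype) (fun k => hC k) hlt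
    have hM' : ∀ k l : K, C (M k) (M l) = - C k l := hM
    let πK : U →ₗ[F] K := π.codRestrict K hπK
    have hdecomp : ∀ u, u = C x u • y - C y u • x + (πK u : U) := by
      intro u
      have : (πK u : U) = u - C x u • y + C y u • x := rfl
      rw [this]
      abel
    -- the automorphism
    let f : U →ₗ[F] U := -(C x).smulRight y - (C y).smulRight x + K.subtype ∘ₗ M.toLinearMap ∘ₗ πK
    have hf : ∀ u, f u = -(C x u • y) - C y u • x + (M (πK u) : U) := fun u => rfl
    have hπy : πK y = 0 := by
      apply Subtype.ext
      show y - C x y • y + C y y • x = 0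
      rw [hy, hC]; simp
    have hπx : πK x = 0 := by
      apply Subtype.ext
      show x - C x x • y + C y x • x = 0
      rw [hyx, hC]; simp
    have hform : ∀ u u', C (f u) (f u') = - C u u' := by
      intro u u'
      have e1 : ∀ k : K, C (k : U) x = 0 := fun k => by rw [hanti x k, (hK k).1, neg_zero]
      have e2 : ∀ k : K, C (k : U) y = 0 := fun k => by rw [hanti y k, (hK k).2, neg_zero]
      rw [hf, hf]
      conv_rhs => rw [hdecomp u, hdecomp u']
      simp only [map_add, map_sub, map_neg, map_smul, LinearMap.add_apply, LinearMap.sub_apply,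
        LinearMap.neg_apply, LinearMap.smul_apply, hC, hy, hyx, (hK _).1, (hK _).2, e1, e2, hM',
        smul_eq_mul]
      ring
    -- injectivity
    have hinj : Function.Injective f := by
      rw [← LinearMap.ker_eq_bot, LinearMap.ker_eq_bot']
      intro u hu
      have h1 : C x (f u) = 0 := by rw [hu, map_zero]
      have h2 : C y (f u) = 0 := by rw [hu, map_zero]
      rw [hf] at h1 h2
      simp only [map_add, map_sub, map_neg, map_smul, hC, hy, hyx, (hK _).1, (hK _).2,
        smul_eq_mul] at h1 h2
      have h3 : C x u = 0 := by linear_combination -h1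
      have h4 : C y u = 0 := by linear_combination h2
      rw [hf, h3, h4] at hu
      have h5 : M (πK u) = 0 := by
        apply Subtype.ext
        simpa using hu
      have h6 : πK u = 0 := by
        simpa using h5
      rw [hdecomp u, h3, h4, h6]
      simp
    exact ⟨LinearEquiv.ofInjectiveEndo f hinj, hform⟩

/-- Every alternating form on a finite-dimensional space is negated by a linear automorphism. -/
theorem exists_neg {U : Type u} [AddCommGroup U] [Module F U] [FiniteDimensional F U]
    (C : U →ₗ[F] U →ₗ[F] F) (hC : ∀ x, C x x = 0) :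
    ∃ M : U ≃ₗ[F] U, ∀ x y, C (M x) (M y) = - C x y :=
  exists_neg_aux _ U C hC le_rfl

end Pool.Agent.V1128.Semi
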