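import Mathlib
import Pool.Agent.V1128.Semi.Grp
import Pool.Agent.V1128.Semi.Alt

set_option autoImplicit false

namespace Pool.Agent.V1128.Semi

variable {V W : Type} [AddCommGroup V] [Module (ZMod 3) V] [AddCommGroup W] [Module (ZMod 3) W]
variable {ι : Type} [Fintype ι] [DecidableEq ι]

/-- the quadratic map -/
def quad (β : V →ₗ[ZMod 3] V →ₗ[ZMod 3] W) (c : ι → ι → ZMod 3) (v : ι → V) : W :=
  ∑ i, ∑ j, c i j • β (v i) (v j)

lemma beta_anti {β : V →ₗ[ZMod 3] V →ₗ[ZMod 3] W} (hβ : ∀ v, β v v = 0) (x y : V) :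
    β y x = - β x y := by
  have := hβ (x + y)
  simp only [map_add, LinearMap.add_apply, hβ] at this
  rw [eq_neg_iff_add_eq_zero]
  simpa using this

omit [DecidableEq ι] in
lemma quad_add_self {β : V →ₗ[ZMod 3] V →ₗ[ZMod 3] W} (hβ : ∀ v, β v v = 0)
    (c : ι → ι → ZMod 3) (v : ι → V) :
    quad β c v + quad β c v = ∑ i, ∑ j, (c i j - c j i) • β (v i) (v j) := by
  have h : quad β c v = - ∑ i, ∑ j, c j i • β (v i) (v j) := by
    rw [quad, Finset.sum_comm, ← Finset.sum_neg_distrib]
    apply Finset.sum_congr rfl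
    intro i _
    rw [← Finset.sum_neg_distrib]
    apply Finset.sum_congr rfl
    intro j _
    rw [beta_anti hβ (v i) (v j), smul_neg]
  simp only [sub_smul, Finset.sum_sub_distrib]
  rw [sub_eq_add_neg, ← h, quad]

omit [DecidableEq ι] in
/-- the quadratic map is determined by the antisymmetric part -/
lemma quad_eq_neg {β : V →ₗ[ZMod 3] V →ₗ[ZMod 3] W} (hβ : ∀ v, β v v = 0)
    (c d : ι → ι → ZMod 3) (h : ∀ i j, d i j - d j i = -(c i j - c j i)) (v : ι → V) :
    quad β d v = - quad β c v := by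
  have h1 := quad_add_self hβ c v
  have h2 := quad_add_self hβ d v
  have h3 : quad β d v + quad β d v = - (quad β c v + quad β c v) := by
    rw [h1, h2, ← Finset.sum_neg_distrib]
    apply Finset.sum_congr rfl
    intro i _
    rw [← Finset.sum_neg_distrib]
    apply Finset.sum_congr rfl
    intro j _
    rw [h, neg_smul]
  have e1 := Hei.three_smul' (quad β c v)
  have e2 := Hei.three_smul' (quad β d v)
  have e3 : quad β d v = - (quad β d v + quad β d v) := by
    rw [eq_neg_iff_add_eq_zero, ← add_assoc]; exact e2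
  have e4 : quad β c v + quad β c v = - quad β c v := by
    rw [eq_neg_iff_add_eq_zero]; exact e1
  rw [e3, h3, neg_neg, e4]

/-- There is a bijection of the tuples which negates the quadratic map. -/
theorem exists_bij {β : V →ₗ[ZMod 3] V →ₗ[ZMod 3] W} (hβ : ∀ v, β v v = 0) [Finite V]
    (c : ι → ι → ZMod 3) : ∃ Φ : (ι → V) ≃ (ι → V), ∀ v, quad β c (Φ v) = - quad β c v := by
  haveI : Fact (Nat.Prime 3) := ⟨Nat.prime_three⟩
  let C : (ι → ZMod 3) →ₗ[ZMod 3] (ι → ZMod 3) →ₗ[ZMod 3] ZMod 3 :=
    ∑ i, ∑ j, (c i j - c j i) • (LinearMap.proj i : (ι → ZMod 3) →ₗ[ZMod 3] ZMod 3).smulRight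
      (LinearMap.proj j : (ι → ZMod 3) →ₗ[ZMod 3] ZMod 3)
  have hC : ∀ x y, C x y = ∑ i, ∑ j, (c i j - c j i) * (x i * y j) := by
    intro x y
    simp [C, LinearMap.sum_apply]
  have hCalt : ∀ x, C x x = 0 := by
    intro x
    rw [hC]
    simp only [sub_mul, Finset.sum_sub_distrib]
    rw [sub_eq_zero]
    conv_rhs => rw [Finset.sum_comm]
    apply Finset.sum_congr rfl
    intro i _
    apply Finset.sum_congr rfl
    intro j _
    ring
  obtain ⟨M, hM⟩ := exists_neg C hCalt
  let m : ι → ι → ZMod 3 := fun k i => M (Pi.single i 1) k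
  let m' : ι → ι → ZMod 3 := fun k i => M.symm (Pi.single i 1) k
  have hMe : ∀ i, M (Pi.single i 1) = ∑ k, m k i • (Pi.single k 1 : ι → ZMod 3) := by
    intro i
    ext k
    simp [m, Pi.single_apply]
  have hinv : ∀ i j, ∑ k, m' i k * m k j = if i = j then 1 else 0 := by
    intro i j
    have h1 : M.symm (M (Pi.single j 1)) i = (Pi.single j 1 : ι → ZMod 3) i := by
      rw [LinearEquiv.symm_apply_apply]
    rw [hMe, map_sum] at h1
    simp only [map_smul, Finset.sum_apply, Pi.smul_apply, smul_eq_mul] at h1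
    rw [Pi.single_apply] at h1
    rw [← h1]
    apply Finset.sum_congr rfl
    intro k _
    rw [mul_comm]
  have hCm : ∀ i j, ∑ k, ∑ l, (c k l - c l k) * (m k i * m l j) = -(c i j - c j i) := by
    intro i j
    have h1 := hM (Pi.single i 1) (Pi.single j 1)
    rw [hC, hC] at h1
    simp only [Pi.single_apply, mul_ite, mul_one, mul_zero, ite_mul, one_mul, zero_mul,
      Finset.sum_ite_eq', Finset.mem_univ, if_true, Finset.sum_ite_irrel,
      Finset.sum_const_zero] at h1
    exact h1
  let f : (ι → V) → (ι → V) := fun v k => ∑ i, m k i • v i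
  have hinj : Function.Injective f := by
    apply Function.LeftInverse.injective (g := fun v k => ∑ i, m' k i • v i)
    intro v
    funext i
    show ∑ k, m' i k • ∑ j, m k j • v j = v i
    simp only [Finset.smul_sum, smul_smul]
    rw [Finset.sum_comm]
    simp only [← Finset.sum_smul, hinv]
    simp
  have hbij : Function.Bijective f := Finite.injective_iff_bijective.mp hinj
  refine ⟨Equiv.ofBijective f hbij, fun v => ?_⟩
  show quad β c (f v) = - quad β c v
  have h1 : quad β c (f v) = quad β (fun i j => ∑ k, ∑ l, c k l * (m k i * m l j)) v := by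
    simp only [quad, f, map_sum, LinearMap.sum_apply, map_smul, LinearMap.smul_apply,
      Finset.smul_sum, smul_smul, Finset.sum_smul]
    -- rearrange the sums
    calc ∑ k, ∑ l, ∑ j, ∑ i, (c k l * (m l j * m k i)) • β (v i) (v j)
        = ∑ k, ∑ l, ∑ i, ∑ j, (c k l * (m k i * m l j)) • β (v i) (v j) := by
          refine Finset.sum_congr rfl fun k _ => Finset.sum_congr rfl fun l _ => ?_
          rw [Finset.sum_comm]
          refine Finset.sum_congr rfl fun i _ => Finset.sum_congr rfl fun j _ => ?_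
          rw [mul_comm (m l j)]
      _ = ∑ i, ∑ j, ∑ k, ∑ l, (c k l * (m k i * m l j)) • β (v i) (v j) := by
          calc ∑ k, ∑ l, ∑ i, ∑ j, (c k l * (m k i * m l j)) • β (v i) (v j)
              = ∑ k, ∑ i, ∑ l, ∑ j, (c k l * (m k i * m l j)) • β (v i) (v j) :=
                Finset.sum_congr rfl fun k _ => Finset.sum_comm
            _ = ∑ i, ∑ k, ∑ l, ∑ j, (c k l * (m k i * m l j)) • β (v i) (v j) := Finset.sum_comm
            _ = ∑ i, ∑ k, ∑ j, ∑ l, (c k l * (m k i * m l j)) • β (v i) (v j) :=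
                Finset.sum_congr rfl fun i _ => Finset.sum_congr rfl fun k _ => Finset.sum_comm
            _ = ∑ i, ∑ j, ∑ k, ∑ l, (c k l * (m k i * m l j)) • β (v i) (v j) :=
                Finset.sum_congr rfl fun i _ => Finset.sum_comm
  rw [h1]
  apply quad_eq_neg hβ
  intro i j
  rw [← hCm i j]
  rw [Finset.sum_comm (f := fun k l => c k l * (m k j * m l i)), ← Finset.sum_sub_distrib]
  refine Finset.sum_congr rfl fun k _ => ?_
  rw [← Finset.sum_sub_distrib]
  refine Finset.sum_congr rfl fun l _ => ?_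
  ring

end Pool.Agent.V1128.Semi
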