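import Mathlib
import Pool.Agent.V1128.Semi.Sym

set_option autoImplicit false

namespace Pool.Agent.V1128.Semi

open scoped ComplexConjugate

lemma int_of_two_mul {z : ℂ} (hz : IsIntegral ℤ z) {M : ℤ} (h : 2 * z = M) : ∃ m : ℤ, z = m := by
  have h1 : z = algebraMap ℚ ℂ ((M : ℚ) / 2) := by
    have h2 : z = (M : ℂ) / 2 := by
      rw [eq_div_iff two_ne_zero, mul_comm]; exact h
    rw [h2]
    simp
  rw [h1, isIntegral_algebraMap_iff (algebraMap ℚ ℂ).injective] at hz
  obtain ⟨m, hm⟩ := IsIntegrallyClosed.isIntegral_iff.mp hz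
  refine ⟨m, ?_⟩
  rw [h1, ← hm]
  simp

/-- a cube root of unity plus its conjugate is an integer -/
lemma add_conj_of_cube {z : ℂ} (hz : z ^ 3 = 1) : ∃ m : ℤ, z + conj z = m := by
  have hn : ‖z‖ = 1 := by
    have h1 : ‖z‖ ^ 3 = 1 := by rw [← norm_pow, hz, norm_one]
    exact (pow_eq_one_iff_of_nonneg (norm_nonneg z) (by norm_num)).mp h1
  have hc : z * conj z = 1 := by
    rw [Complex.mul_conj, Complex.normSq_eq_norm_sq, hn]
    simp
  by_cases h1 : z = 1
  · exact ⟨2, by rw [h1]; simp; norm_num⟩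
  · refine ⟨-1, ?_⟩
    have h2 : z ^ 2 + z + 1 = 0 := by
      have : (z - 1) * (z ^ 2 + z + 1) = 0 := by linear_combination hz
      rcases mul_eq_zero.mp this with h | h
      · exact absurd (sub_eq_zero.mp h) h1
      · exact h
    have hz0 : z ≠ 0 := by
      rintro rfl
      simp at hz
    have h3 : conj z = z ^ 2 := by
      apply mul_left_cancel₀ hz0
      rw [hc]
      linear_combination -hz
    rw [h3]
    push_cast
    linear_combination h2

end Pool.Agent.V1128.Semi
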