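import Mathlib
import Pool.Agent.V1128.Semi.CharLemmas
import Pool.Agent.V1128.Semi.Defs

set_option autoImplicit false

namespace Pool.Agent.V1128.Semi

open scoped ComplexConjugate

variable {V W : Type} [AddCommGroup V] [Module (ZMod 3) V] [AddCommGroup W] [Module (ZMod 3) W]
  [Fintype V] [Fintype W]

/-- number of solutions is invariant under conjugation -/
lemma wordCount_conj {G : Type} [Group G] {r : ℕ} (u : FreeGroup (Fin r)) (g h : G) :
    wordCount u (h * g * h⁻¹) = wordCount u g := by
  unfold wordCount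
  apply Nat.card_congr
  have key : ∀ (k : G) (x : Fin r → G), FreeGroup.lift (fun i => k * x i * k⁻¹) u =
      k * FreeGroup.lift x u * k⁻¹ := by
    intro k x
    have h1 : (MulAut.conj k).toMonoidHom.comp (FreeGroup.lift x) =
        FreeGroup.lift (fun i => k * x i * k⁻¹) := by
      ext i
      simp
    rw [← h1]
    rfl
  refine ⟨fun x => ⟨fun i => h⁻¹ * x.1 i * h, ?_⟩, fun x => ⟨fun i => h * x.1 i * h⁻¹, ?_⟩, ?_, ?_⟩
  · have := key h⁻¹ x.1
    rw [inv_inv] at this
    rw [this, x.2]
    group
  · rw [key, x.2]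
  · intro x
    apply Subtype.ext
    funext i
    simp [mul_assoc]
  · intro x
    apply Subtype.ext
    funext i
    simp [mul_assoc]

/-- a weighted sum of the numbers of solutions is a sum over all tuples -/
lemma sum_wordCount {G : Type} [Group G] [Fintype G] {r : ℕ} (u : FreeGroup (Fin r)) (F : G → ℂ) :
    ∑ g, (wordCount u g : ℂ) * F g = ∑ x : Fin r → G, F (FreeGroup.lift x u) := by
  classical
  rw [← Finset.sum_fiberwise (s := Finset.univ) (g := fun x : Fin r → G => FreeGroup.lift x u)]
  apply Finset.sum_congr rfl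
  intro g _
  rw [Finset.sum_congr rfl (g := fun _ => F g)]
  · rw [Finset.sum_const, nsmul_eq_mul]
    congr 2
    rw [wordCount, Nat.card_eq_fintype_card, Fintype.card_subtype]
  · intro x hx
    rw [(Finset.mem_filter.mp hx).2]

/-- The case of a word with a letter of exponent not divisible by three. -/
lemma sum_linear {β : V →ₗ[ZMod 3] V →ₗ[ZMod 3] W} {n : ℕ} (u : FreeGroup (Fin (n + 1)))
    (a : Fin (n + 1) → ZMod 3) (c : Fin (n + 1) → Fin (n + 1) → ZMod 3)
    (hu : ∀ x : Fin (n + 1) → Hei β, FreeGroup.lift x u = ⟨∑ i, a i • (x i).v,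
        ∑ i, a i • (x i).w + ∑ i, ∑ j, c i j • β (x i).v (x j).v⟩)
    (i₀ : Fin (n + 1)) (hi : a i₀ ≠ 0) (F : Hei β → ℂ) :
    ∑ x : Fin (n + 1) → Hei β, F (FreeGroup.lift x u) =
      (Fintype.card (Hei β) : ℂ) ^ n * ∑ g, F g := by
  rw [← (Fin.insertNthEquiv (fun _ => Hei β) i₀).sum_comp, Fintype.sum_prod_type_right]
  have hbij : ∀ y : Fin n → Hei β, Function.Bijective
      (fun g : Hei β => FreeGroup.lift (i₀.insertNth g y : Fin (n + 1) → Hei β) u) := by
    intro y
    rw [← Finite.injective_iff_bijective]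
    intro g h hgh
    have hgh' : FreeGroup.lift (i₀.insertNth g y : Fin (n + 1) → Hei β) u =
      FreeGroup.lift (i₀.insertNth h y : Fin (n + 1) → Hei β) u := hgh
    rw [hu, hu] at hgh'
    have hv := congrArg Hei.v hgh'
    have hw := congrArg Hei.w hgh'
    simp only [Fin.sum_univ_succAbove _ i₀, Fin.insertNth_apply_same,
      Fin.insertNth_apply_succAbove, add_left_inj] at hv
    have hv' : g.v = h.v := by
      have := smul_right_injective V hi hv
      exact this
    have hw' : g.w = h.w := by
      simp only [Fin.sum_univ_succAbove _ i₀, Fin.insertNth_apply_same,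
        Fin.insertNth_apply_succAbove, hv', add_left_inj] at hw
      exact smul_right_injective W hi hw
    exact Hei.ext hv' hw'
  have h1 : ∀ y : Fin n → Hei β, ∑ g : Hei β,
      F (FreeGroup.lift ((Fin.insertNthEquiv (fun _ => Hei β) i₀) (g, y)) u) = ∑ g, F g := by
    intro y
    exact (Equiv.ofBijective _ (hbij y)).sum_comp F
  rw [Finset.sum_congr rfl fun y _ => h1 y]
  simp [Finset.card_univ]

end Pool.Agent.V1128.Semi
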