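import Mathlib
import Pool.Agent.V1128.Semi.Char

set_option autoImplicit false

namespace Pool.Agent.V1128.Semi

open scoped ComplexConjugate

/-- the average of a character is a natural number -/
lemma average_char {G : Type} [Group G] [Fintype G] {E : Type} [AddCommGroup E] [Module ℂ E]
    [FiniteDimensional ℂ E] (ρ : Representation ℂ G E) :
    (Fintype.card G : ℂ)⁻¹ * ∑ g, ρ.character g = Module.finrank ℂ ρ.invariants := by
  letI : Invertible (Fintype.card G : ℂ) := invertibleOfNonzero (by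
    exact_mod_cast Fintype.card_ne_zero)
  rw [← (Representation.isProj_averageMap ρ).trace]
  simp [Representation.character, Representation.averageMap, GroupAlgebra.average, map_sum]

variable {V W : Type} [AddCommGroup V] [Module (ZMod 3) V] [AddCommGroup W] [Module (ZMod 3) W]
  [Fintype V] [Fintype W]

/-- the central character -/
lemma exists_central {β : V →ₗ[ZMod 3] V →ₗ[ZMod 3] W} {E : Type} [AddCommGroup E] [Module ℂ E]
    [FiniteDimensional ℂ E] (ρ : Representation ℂ (Hei β) E) (hρ : ρ.IsIrreducible) :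
    ∃ ψ : AddChar W ℂ, ∀ w, ρ.character ⟨0, w⟩ = ψ w * Module.finrank ℂ E := by
  have hsc : ∀ w : W, ∃ c : ℂ, ρ ⟨0, w⟩ = c • LinearMap.id := by
    intro w
    let f : Representation.IntertwiningMap ρ ρ :=
      LinearMap.intertwiningMap_of_isIntertwiningMap ρ ρ (ρ ⟨0, w⟩) (by
        intro g v
        have h1 : ρ (⟨0, w⟩ * g) v = ρ (g * ⟨0, w⟩) v := by rw [Hei.central]
        simpa [map_mul] using h1)
    have := hρ
    obtain ⟨c, hc⟩ :=
      (Representation.IsIrreducible.algebraMap_intertwiningMap_bijective_of_isAlgClosed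
        (k := ℂ) (ρ := ρ)).2 f
    refine ⟨c, ?_⟩
    have h2 : f.toLinearMap = c • LinearMap.id := by
      rw [← hc]
      rfl
    exact h2
  have hne : Nontrivial E := by
    by_contra hcon
    rw [not_nontrivial_iff_subsingleton] at hcon
    have h1 : (⊥ : Subrepresentation ρ) = ⊤ := by
      apply Subrepresentation.toSubmodule_injective
      ext x
      have : x = 0 := Subsingleton.elim _ _
      subst this
      simp
    exact bot_ne_top h1
  choose ψ hψ using hsc
  have hid : (LinearMap.id : E →ₗ[ℂ] E) ≠ 0 := by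
    obtain ⟨x, hx⟩ := exists_ne (0 : E)
    intro h
    exact hx (LinearMap.congr_fun h x)
  have h0 : ψ 0 = 1 := by
    have h1 : ρ ⟨0, 0⟩ = LinearMap.id := map_one ρ
    rw [hψ] at h1
    have h2 : (ψ 0 - 1) • (LinearMap.id : E →ₗ[ℂ] E) = 0 := by
      rw [sub_smul, h1, one_smul, sub_self]
    rcases smul_eq_zero.mp h2 with h | h
    · exact sub_eq_zero.mp h
    · exact absurd h hid
  have hadd : ∀ w w', ψ (w + w') = ψ w * ψ w' := by
    intro w w'
    have h1 : (⟨0, w + w'⟩ : Hei β) = ⟨0, w⟩ * ⟨0, w'⟩ := by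
      apply Hei.ext <;> simp
    have h2 : ρ ⟨0, w + w'⟩ = ρ ⟨0, w⟩ * ρ ⟨0, w'⟩ := by rw [h1, map_mul]
    rw [hψ, hψ, hψ] at h2
    have h3 : (ψ (w + w') - ψ w * ψ w') • (LinearMap.id : E →ₗ[ℂ] E) = 0 := by
      rw [sub_smul, h2, sub_eq_zero]
      ext x
      simp [mul_smul, smul_comm (ψ w)]
    rcases smul_eq_zero.mp h3 with h | h
    · exact sub_eq_zero.mp h
    · exact absurd h hid
  refine ⟨⟨ψ, h0, hadd⟩, fun w => ?_⟩
  show LinearMap.trace ℂ E (ρ ⟨0, w⟩) = ψ w * _
  rw [hψ, map_smul, LinearMap.trace_id, smul_eq_mul]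

/-- the sum attached to a quadratic map -/
lemma quad_sum_integer {β : V →ₗ[ZMod 3] V →ₗ[ZMod 3] W} (hβ : ∀ v, β v v = 0) (n : ℕ)
    (c : Fin (n + 1) → Fin (n + 1) → ZMod 3) (ψ : AddChar W ℂ) :
    ∃ m : ℤ, ∑ v : Fin (n + 1) → V, ψ (quad β c v) = (Fintype.card V : ℂ) * m := by
  classical
  -- the partial sums
  let ℓ : (Fin n → V) → V := fun v => ∑ j, (c 0 j.succ - c j.succ 0) • v j
  let q₀ : (Fin n → V) → W := fun v => quad β c (Fin.cons 0 v)
  have hsplit : ∀ (v₀ : V) (v : Fin n → V), quad β c (Fin.cons v₀ v) = q₀ v + β v₀ (ℓ v) := by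
    intro v₀ v
    simp only [q₀, ℓ, quad, Fin.sum_univ_succ, Fin.cons_zero, Fin.cons_succ, hβ, smul_zero,
      map_zero, LinearMap.zero_apply, Finset.sum_const_zero, zero_add, map_sum, map_smul, sub_smul,
      Finset.sum_sub_distrib, map_sub]
    have h1 : ∀ i : Fin n, c i.succ 0 • β (v i) v₀ = - (c i.succ 0 • β v₀ (v i)) := by
      intro i
      rw [beta_anti hβ v₀ (v i), smul_neg]
    simp only [h1, Finset.sum_add_distrib, Finset.sum_neg_distrib]
    abel
  let χ : (Fin n → V) → AddChar V ℂ := fun v =>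
    ψ.compAddMonoidHom (β.flip (ℓ v)).toAddMonoidHom
  have hχ : ∀ v v₀, χ v v₀ = ψ (β v₀ (ℓ v)) := fun v v₀ => rfl
  let E : ℂ := ∑ v : Fin n → V, if χ v = 0 then ψ (q₀ v) else 0
  have hE : ∑ v : Fin (n + 1) → V, ψ (quad β c v) = (Fintype.card V : ℂ) * E := by
    rw [← (Fin.consEquiv (fun _ => V)).sum_comp, Fintype.sum_prod_type_right]
    rw [Finset.mul_sum]
    apply Finset.sum_congr rfl
    intro v _
    have h1 : ∀ v₀ : V, ψ (quad β c ((Fin.consEquiv (fun _ => V)) (v₀, v))) =
        ψ (q₀ v) * χ v v₀ := by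
      intro v₀
      rw [hχ, ← AddChar.map_add_eq_mul, ← hsplit]
      rfl
    rw [Finset.sum_congr rfl fun v₀ _ => h1 v₀, ← Finset.mul_sum, AddChar.sum_eq_ite]
    split_ifs
    · rw [mul_comm]
    · simp
  have hcube : ∀ w, ψ w ^ 3 = 1 := by
    intro w
    rw [← AddChar.map_nsmul_eq_pow]
    have : (3 : ℕ) • w = 0 := by
      have := Hei.three_smul' w
      rw [← this]
      abel
    rw [this, AddChar.map_zero_eq_one]
  -- `E` is an algebraic integer
  have hint : IsIntegral ℤ E := by
    apply IsIntegral.sum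
    intro v _
    split_ifs
    · apply IsIntegral.of_pow (n := 3) (by norm_num)
      rw [hcube]
      exact isIntegral_one
    · exact isIntegral_zero
  -- `E` is real
  have hcard : (Fintype.card V : ℂ) ≠ 0 := by exact_mod_cast Fintype.card_ne_zero
  have hreal : conj E = E := by
    obtain ⟨Φ, hΦ⟩ := exists_bij hβ c
    have h1 : conj (∑ v : Fin (n + 1) → V, ψ (quad β c v)) = ∑ v : Fin (n + 1) → V, ψ (quad β c v) := by
      rw [map_sum, ← Φ.sum_comp]
      apply Finset.sum_congr rfl
      intro v _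
      rw [hΦ, AddChar.map_neg_eq_conj, Complex.conj_conj]
    rw [hE, map_mul] at h1
    have h2 : conj (Fintype.card V : ℂ) = (Fintype.card V : ℂ) := by simp
    rw [h2] at h1
    exact mul_left_cancel₀ hcard h1
  -- `2E` is an integer
  have htwo : ∃ M : ℤ, 2 * E = M := by
    have h1 : ∀ v : Fin n → V, ∃ m : ℤ, (if χ v = 0 then ψ (q₀ v) else 0) +
        conj (if χ v = 0 then ψ (q₀ v) else 0) = m := by
      intro v
      split_ifs
      · exact add_conj_of_cube (hcube _)
      · exact ⟨0, by simp⟩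
    choose m hm using h1
    refine ⟨∑ v, m v, ?_⟩
    have h2 : 2 * E = E + conj E := by rw [hreal]; ring
    rw [h2]
    push_cast
    rw [← Finset.sum_congr rfl fun v _ => hm v, Finset.sum_add_distrib, ← map_sum]
  obtain ⟨M, hM⟩ := htwo
  obtain ⟨m, hm⟩ := int_of_two_mul hint hM
  exact ⟨m, by rw [hE, hm]⟩

/-- The group of every alternating bilinear map over the field with three elements is
semi-rational. -/
theorem semiRational (β : V →ₗ[ZMod 3] V →ₗ[ZMod 3] W) (hβ : ∀ v, β v v = 0) :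
    SemiRational (Hei β) := by
  classical
  intro r u hr
  refine ⟨fun g h => by simp only [wordCount_conj], ?_⟩
  intro E _ _ _ ρ hρ
  obtain ⟨n, rfl⟩ : ∃ n, r = n + 1 := ⟨r - 1, by omega⟩
  obtain ⟨a, c, hu⟩ := Hei.normal_form hβ u
  rw [sum_wordCount u (fun g => conj (ρ.character g))]
  by_cases ha : ∃ i, a i ≠ 0
  · obtain ⟨i₀, hi⟩ := ha
    rw [sum_linear u a c hu i₀ hi (fun g => conj (ρ.character g))]
    refine ⟨(Fintype.card (Hei β) : ℤ) ^ n * Module.finrank ℂ ρ.invariants, ?_⟩
    have h1 := average_char ρ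
    have h2 : (Fintype.card (Hei β) : ℂ)⁻¹ * ∑ g, conj (ρ.character g) =
        Module.finrank ℂ ρ.invariants := by
      rw [← map_sum]
      have h3 : conj ((Fintype.card (Hei β) : ℂ)⁻¹ * ∑ g, ρ.character g) =
        (Fintype.card (Hei β) : ℂ)⁻¹ * conj (∑ g, ρ.character g) := by
        rw [map_mul]
        simp
      rw [← h3, h1]
      simp
    push_cast
    rw [← h2]
    ring
  · push Not at ha
    obtain ⟨ψ, hψ⟩ := exists_central ρ hρ
    obtain ⟨m, hm⟩ := quad_sum_integer hβ n c ψ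
    have h1 : ∀ x : Fin (n + 1) → Hei β, FreeGroup.lift x u = ⟨0, quad β c (fun i => (x i).v)⟩ := by
      intro x
      rw [hu]
      apply Hei.ext
      · simp [ha]
      · simp [ha, quad]
    simp only [h1, hψ, map_mul]
    let e : (Fin (n + 1) → Hei β) ≃ (Fin (n + 1) → V) × (Fin (n + 1) → W) :=
      (Equiv.arrowCongr (Equiv.refl _) (Hei.equiv β)).trans
        (Equiv.arrowProdEquivProdArrow _ _ _)
    have h2 : ∑ x : Fin (n + 1) → Hei β, conj (ψ (quad β c (fun i => (x i).v))) *
        conj (Module.finrank ℂ E : ℂ) =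
        (Fintype.card W : ℂ) ^ (n + 1) * (conj (∑ v : Fin (n + 1) → V, ψ (quad β c v)) *
          (Module.finrank ℂ E : ℂ)) := by
      rw [← e.symm.sum_comp, Fintype.sum_prod_type_right]
      have h3 : ∀ (y : Fin (n + 1) → W), ∑ v : Fin (n + 1) → V,
          conj (ψ (quad β c (fun i => (e.symm (v, y) i).v))) * conj (Module.finrank ℂ E : ℂ) =
          conj (∑ v : Fin (n + 1) → V, ψ (quad β c v)) * (Module.finrank ℂ E : ℂ) := by
        intro y
        rw [map_sum, Finset.sum_mul]
        apply Finset.sum_congr rfl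
        intro v _
        have h4 : (fun i => (e.symm (v, y) i).v) = v := rfl
        rw [h4]
        simp
      rw [Finset.sum_congr rfl fun y _ => h3 y]
      simp [Finset.card_univ]
    rw [h2, hm]
    refine ⟨(Fintype.card W : ℤ) ^ n * m * Module.finrank ℂ E, ?_⟩
    rw [Hei.card]
    have hV : (Fintype.card V : ℂ) ≠ 0 := by exact_mod_cast Fintype.card_ne_zero
    have hW : (Fintype.card W : ℂ) ≠ 0 := by exact_mod_cast Fintype.card_ne_zero
    have h5 : conj ((Fintype.card V : ℂ) * (m : ℂ)) = (Fintype.card V : ℂ) * (m : ℂ) := by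
      simp
    rw [h5]
    push_cast
    field_simp
    ring

end Pool.Agent.V1128.Semi
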